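import Pool.Agent.W186.AI.Spec

set_option autoImplicit false

/-!
AI-CNT: countably many identities, each with countably many zeros.
-/

namespace Pool.Agent.W926.AI.CNT

open Pool.Agent.W186.AI Filter Topology Set

theorem countable_mv (m : ℕ) : Countable (MvPolynomial (Fin m) ℚ) := by
  have h : Cardinal.mk (MvPolynomial (Fin m) ℚ) ≤ Cardinal.aleph0 := by
    refine (MvPolynomial.cardinalMk_le_max (σ := Fin m) (R := ℚ)).trans ?_
    simp
  exact Cardinal.mk_le_aleph0_iff.1 h

theorem zeros_countable (F : ℝ → ℝ) (hF : AnalyticOnNhd ℝ F (Ioi (1 / 2)))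
    (hne : ¬ ∀ a : ℝ, 1 / 2 < a → F a = 0) : {a : ℝ | 1 / 2 < a ∧ F a = 0}.Countable := by
  have key : ∀ x ∈ {a : ℝ | 1 / 2 < a ∧ F a = 0}, ({x} : Set ℝ) ∈ 𝓝[{a : ℝ | 1 / 2 < a ∧ F a = 0}] x := by
    intro x hx
    by_contra hcon
    apply hne
    have hfr : ∃ᶠ z in 𝓝[≠] x, F z = 0 := by
      intro hev
      apply hcon
      rw [eventually_nhdsWithin_iff] at hev
      rw [mem_nhdsWithin_iff_eventually]
      filter_upwards [hev] with z hz hzZ
      by_contra hzx
      exact hz hzx hzZ.2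
    have := hF.eqOn_zero_of_preconnected_of_frequently_eq_zero isPreconnected_Ioi hx.1 hfr
    intro a ha
    exact this ha
  obtain ⟨t, _, htc, hsub⟩ := TopologicalSpace.countable_cover_nhdsWithin key
  refine Set.Countable.mono hsub (htc.biUnion fun x _ => Set.countable_singleton x)

theorem main (he : S_ENU) (hr : S_RAN) (hc : S_COR) : S_MAIN := by
  classical
  obtain ⟨τ, hτ⟩ := he
  have han := hr τ hτ
  let Ix : Type := Σ m : ℕ, (Fin m → ℕ) × MvPolynomial (Fin m) ℚ
  let F : Ix → ℝ → ℝ := fun i a => MvPolynomial.aeval (fun j => τ (i.2.1 j) a) i.2.2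
  have hIx : Countable Ix := by
    have : ∀ m : ℕ, Countable (MvPolynomial (Fin m) ℚ) := countable_mv
    infer_instance
  refine ⟨⋃ i : {i : Ix // Function.Injective i.2.1 ∧ i.2.2 ≠ 0}, {a : ℝ | 1 / 2 < a ∧ F i.1 a = 0}, ?_, ?_⟩
  · refine Set.countable_iUnion fun i => ?_
    obtain ⟨⟨m, n, P⟩, hinj, hP⟩ := i
    refine zeros_countable _ ?_ ?_
    · exact AnalyticOnNhd.aeval_mvPolynomial (fun j => han (n j)) P
    · intro h0
      apply hP
      have h1 : (MvPolynomial.map (algebraMap ℚ ℂ) P) = 0 := by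
        refine hc τ hτ m n _ hinj ?_
        intro a ha
        have h2 := h0 a ha
        have h3 : MvPolynomial.eval (fun i => ((τ (n i) a : ℝ) : ℂ)) (MvPolynomial.map (algebraMap ℚ ℂ) P)
            = ((MvPolynomial.aeval (fun j => τ (n j) a) P : ℝ) : ℂ) := by
          rw [MvPolynomial.eval_map, ← MvPolynomial.aeval_def]
          exact MvPolynomial.aeval_algebraMap_apply (A := ℝ) ℂ (fun j => τ (n j) a) P
        rw [h3]
        have h4 : (MvPolynomial.aeval (fun j => τ (n j) a) P : ℝ) = 0 := h2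
        rw [h4]
        simp
      exact (MvPolynomial.map_injective _ (algebraMap ℚ ℂ).injective) (by rw [h1, map_zero])
  · intro a ha haB
    have hidx : ∀ t : {t : ℝ // 0 < t ∧ X a t = 0}, ∃ k : ℕ, (t : ℝ) = τ k a :=
      fun t => hτ.2.2.1 a t ha t.2.1 t.2.2
    choose idx hidx using hidx
    have hinj : Function.Injective idx := by
      intro s t hst
      apply Subtype.ext
      rw [hidx s, hidx t, hst]
    rw [algebraicIndependent_iff]
    intro p hp
    obtain ⟨m, f, hf, q, rfl⟩ := MvPolynomial.exists_fin_rename p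
    rw [MvPolynomial.aeval_rename] at hp
    by_contra hq
    have hq0 : q ≠ 0 := by
      rintro rfl
      exact hq (map_zero _)
    apply haB
    rw [mem_iUnion]
    refine ⟨⟨⟨m, fun i => idx (f i), q⟩, ⟨fun i j hij => hf (hinj hij), hq0⟩⟩, ha, ?_⟩
    have h5 : (fun i => τ (idx (f i)) a) = (fun t : {t : ℝ // 0 < t ∧ X a t = 0} => (t : ℝ)) ∘ f := by
      funext i
      exact (hidx (f i)).symm
    change MvPolynomial.aeval (fun i => τ (idx (f i)) a) q = 0
    rw [h5]
    exact hp

end Pool.Agent.W926.AI.CNT
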